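import Mathlib

set_option autoImplicit false

namespace Pool.Agent.H259R2.Sq

open Finset

/-- mismatch indicator -/
def mm : Option Bool → Option Bool → ℕ
  | some true, some false => 1
  | some false, some true => 1
  | _, _ => 0

theorem mm_eq (a b : Option Bool) : mm a b = if (a ≠ none ∧ b ≠ none ∧ a ≠ b) then 1 else 0 := by
  rcases a with _ | a <;> rcases b with _ | b
  · simp [mm]
  · simp [mm]
  · simp [mm]
  · cases a <;> cases b <;> simp [mm]

theorem mm_comm (a b : Option Bool) : mm a b = mm b a := by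
  rcases a with _ | a <;> rcases b with _ | b
  · rfl
  · simp [mm]
  · simp [mm]
  · cases a <;> cases b <;> simp [mm]

/-- mismatch count -/
def mis {ι : Type*} [Fintype ι] (a b : ι → Option Bool) : ℕ := ∑ i, mm (a i) (b i)

theorem mis_eq {ι : Type*} [Fintype ι] (a b : ι → Option Bool) :
    mis a b = (Finset.univ.filter (fun i => a i ≠ none ∧ b i ≠ none ∧ a i ≠ b i)).card := by
  unfold mis
  rw [Finset.card_filter]
  exact Finset.sum_congr rfl (fun i _ => mm_eq _ _)

theorem mis_comm {ι : Type*} [Fintype ι] (a b : ι → Option Bool) : mis a b = mis b a := by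
  unfold mis
  exact Finset.sum_congr rfl (fun i _ => mm_comm _ _)

theorem mm_self (a : Option Bool) : mm a a = 0 := by
  rcases a with _ | a
  · rfl
  · cases a <;> rfl

/-- address table of `K_{2,2,2,2}` together with the cut coordinate `0`. -/
def tab (v : ℕ) (k : Fin 6) : Option Bool :=
  if 8 ≤ v then (if k = 0 then some true else none)
  else if k = 0 then some false
  else if k = 1 then some (decide (4 ≤ v))
  else if k = 2 then (if v < 4 then some (decide (v = 2 ∨ v = 3)) else none)
  else if k = 3 then (if v < 4 then some (decide (v = 1 ∨ v = 2)) else none)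
  else if k = 4 then (if v < 4 then none else some (decide (v = 6 ∨ v = 7)))
  else (if v < 4 then none else some (decide (v = 5 ∨ v = 6)))

theorem tab_small : ∀ v w : Fin 8, mis (tab v) (tab w) =
    if v = w then 0 else if (v : ℕ) / 4 = (w : ℕ) / 4 ∧ (v : ℕ) % 2 = (w : ℕ) % 2 then 2 else 1 := by
  decide +kernel

theorem tab_mixed (w : ℕ) (hw : 8 ≤ w) : ∀ v : Fin 8, mis (tab v) (tab w) = 1 := by
  have h : tab w = tab 8 := by
    funext k
    simp [tab, hw]
  rw [h]
  decide +kernel

theorem tab_large (v w : ℕ) (hv : 8 ≤ v) (hw : 8 ≤ w) : mis (tab v) (tab w) = 0 := by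
  have h : tab w = tab 8 := by
    funext k
    simp [tab, hw]
  have h' : tab v = tab 8 := by
    funext k
    simp [tab, hv]
  rw [h, h']
  decide +kernel

open Classical in
/-- star coordinates -/
noncomputable def star {n : ℕ} (G : SimpleGraph (Fin n)) (v : Fin n) (u : {u : Fin n // 8 ≤ (u : ℕ)}) :
    Option Bool :=
  if v = u.1 then some true else if u.1 < v then some false
    else if G.Adj v u.1 then none else some false

theorem star_small {n : ℕ} (G : SimpleGraph (Fin n)) (v w : Fin n) (hv : (v : ℕ) < 8)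
    (hw : (w : ℕ) < 8) : mis (star G v) (star G w) = 0 := by
  classical
  unfold mis
  apply Finset.sum_eq_zero
  rintro ⟨u, hu⟩ -
  have a1 : v ≠ u := by rintro rfl; omega
  have a2 : w ≠ u := by rintro rfl; omega
  have a3 : ¬ u < v := by rw [Fin.lt_def]; omega
  have a4 : ¬ u < w := by rw [Fin.lt_def]; omega
  simp only [star, a1, a2, a3, a4, if_false]
  by_cases b1 : G.Adj v u <;> by_cases b2 : G.Adj w u <;> simp [b1, b2, mm]

open Classical in
theorem star_mixed {n : ℕ} (G : SimpleGraph (Fin n)) (v w : Fin n) (hv : (v : ℕ) < 8)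
    (hw : 8 ≤ (w : ℕ)) : mis (star G v) (star G w) = if G.Adj v w then 0 else 1 := by
  have hvw : v ≠ w := by rintro rfl; omega
  unfold mis
  have : ∀ u : {u : Fin n // 8 ≤ (u : ℕ)}, mm (star G v u) (star G w u)
      = if (⟨w, hw⟩ : {u : Fin n // 8 ≤ (u : ℕ)}) = u then (if G.Adj v w then 0 else 1) else 0 := by
    rintro ⟨u, hu⟩
    have a1 : v ≠ u := by rintro rfl; omega
    have a3 : ¬ u < v := by rw [Fin.lt_def]; omega
    by_cases huw : w = u
    · subst huw
      by_cases b1 : G.Adj v w
      · simp [star, b1, a1, a3, mm]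
      · simp [star, b1, a1, a3, mm]
    · have e : ((⟨w, hw⟩ : {u : Fin n // 8 ≤ (u : ℕ)}) = ⟨u, hu⟩) = False := by
        simp [huw]
      rw [if_neg (by simp [huw])]
      by_cases b2 : G.Adj v u <;> by_cases b3 : u < w <;>
        by_cases b4 : G.Adj w u <;> simp [star, b2, b3, b4, a1, a3, huw, mm]
  rw [Finset.sum_congr rfl (fun u _ => this u)]
  simp

open Classical in
theorem star_large {n : ℕ} (G : SimpleGraph (Fin n)) (v w : Fin n) (hv : 8 ≤ (v : ℕ))
    (hw : 8 ≤ (w : ℕ)) (hvw : v < w) :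
    mis (star G v) (star G w) = if G.Adj v w then 1 else 2 := by
  have hne : v ≠ w := ne_of_lt hvw
  unfold mis
  have : ∀ u : {u : Fin n // 8 ≤ (u : ℕ)}, mm (star G v u) (star G w u)
      = (if (⟨v, hv⟩ : {u : Fin n // 8 ≤ (u : ℕ)}) = u then 1 else 0) +
        (if (⟨w, hw⟩ : {u : Fin n // 8 ≤ (u : ℕ)}) = u then (if G.Adj v w then 0 else 1) else 0) := by
    rintro ⟨u, hu⟩
    by_cases huv : v = u
    · subst huv
      rw [if_pos rfl, if_neg (by simp [hne.symm])]
      simp [star, hne.symm, hvw, mm]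
    · by_cases huw : w = u
      · subst huw
        rw [if_neg (by simp [hne]), if_pos rfl]
        have a3 : ¬ w < v := not_lt.mpr hvw.le
        by_cases b1 : G.Adj v w
        · simp [star, b1, hne, a3, mm]
        · simp [star, b1, hne, a3, mm]
      · rw [if_neg (by simp [huv]), if_neg (by simp [huw])]
        by_cases b2 : G.Adj v u <;> by_cases b3 : u < w <;>
          by_cases b4 : G.Adj w u <;> by_cases b5 : u < v <;>
          simp [star, b2, b3, b4, b5, huw, huv, mm]
  rw [Finset.sum_congr rfl (fun u _ => this u), Finset.sum_add_distrib]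
  simp
  split_ifs <;> rfl

theorem mis_sum {ι κ : Type*} [Fintype ι] [Fintype κ] (a b : ι → Option Bool) (a' b' : κ → Option Bool) :
    mis (Sum.elim a a') (Sum.elim b b') = mis a b + mis a' b' := by
  unfold mis
  rw [Fintype.sum_sum_type]
  rfl

theorem mis_equiv {ι κ : Type*} [Fintype ι] [Fintype κ] (e : κ ≃ ι) (a b : ι → Option Bool) :
    mis (a ∘ e) (b ∘ e) = mis a b := by
  unfold mis
  exact Equiv.sum_comp e (fun i => mm (a i) (b i))

theorem card_large {n : ℕ} (hn : 8 ≤ n) : Fintype.card {u : Fin n // 8 ≤ (u : ℕ)} = n - 8 := by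
  have h1 : Fintype.card {u : Fin n // (u : ℕ) < 8} = 8 := by
    rw [Fintype.card_subtype]
    have : (Finset.univ.filter (fun u : Fin n => (u : ℕ) < 8)) =
        Finset.univ.map (Fin.castLEEmb hn) := by
      ext u
      simp only [mem_filter, mem_univ, true_and, mem_map, Fin.castLEEmb_apply]
      constructor
      · intro h
        exact ⟨⟨u, h⟩, by ext; simp⟩
      · rintro ⟨x, rfl⟩
        simp
    rw [this]
    simp
  have h2 := Fintype.card_subtype_compl (fun u : Fin n => (u : ℕ) < 8)
  rw [Fintype.card_fin, h1] at h2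
  rw [← h2]
  apply Fintype.card_congr
  exact Equiv.subtypeEquivRight (fun u => by simp)

/-- The graph induces `K_{2,2,2,2}` on the first eight vertices. -/
def Oct {n : ℕ} (G : SimpleGraph (Fin n)) : Prop :=
  ∀ i j : Fin n, (i : ℕ) < 8 → (j : ℕ) < 8 →
    (G.Adj i j ↔ ¬ ((i : ℕ) / 4 = (j : ℕ) / 4 ∧ (i : ℕ) % 2 = (j : ℕ) % 2))

/-- any two distinct nonadjacent vertices have a common neighbour -/
def Diam2 {n : ℕ} (G : SimpleGraph (Fin n)) : Prop :=
  ∀ u v : Fin n, u ≠ v → ∃ w, G.Adj u w ∧ G.Adj v w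

theorem dist_two {n : ℕ} (G : SimpleGraph (Fin n)) (hG : Diam2 G) (u v : Fin n) (h : u ≠ v)
    (ha : ¬ G.Adj u v) : G.dist u v = 2 := by
  obtain ⟨w, h1, h2⟩ := hG u v h
  have hw : G.Reachable u v := ⟨(SimpleGraph.Walk.cons h1 (SimpleGraph.Walk.cons h2.symm SimpleGraph.Walk.nil))⟩
  have hle : G.dist u v ≤ 2 := SimpleGraph.dist_le
    (SimpleGraph.Walk.cons h1 (SimpleGraph.Walk.cons h2.symm SimpleGraph.Walk.nil))
  have h0 : G.dist u v ≠ 0 := by
    intro h0
    exact h (hw.dist_eq_zero_iff.mp h0)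
  have h1' : G.dist u v ≠ 1 := by
    intro h1'
    exact ha (SimpleGraph.dist_eq_one_iff_adj.mp h1')
  omega

theorem addr {n : ℕ} (hn : 8 ≤ n) (G : SimpleGraph (Fin n)) (hO : Oct G) (hD : Diam2 G) :
    ∃ f : Fin n → Fin (n - 2) → Option Bool, ∀ u v : Fin n,
      G.dist u v = (Finset.univ.filter
        (fun i => f u i ≠ none ∧ f v i ≠ none ∧ f u i ≠ f v i)).card := by
  classical
  have hc : Fintype.card (Fin 6 ⊕ {u : Fin n // 8 ≤ (u : ℕ)}) = n - 2 := by
    rw [Fintype.card_sum, Fintype.card_fin, card_large hn]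
    omega
  let e : Fin (n - 2) ≃ (Fin 6 ⊕ {u : Fin n // 8 ≤ (u : ℕ)}) :=
    (Fintype.equivFinOfCardEq hc).symm
  let g : Fin n → (Fin 6 ⊕ {u : Fin n // 8 ≤ (u : ℕ)}) → Option Bool :=
    fun v => Sum.elim (tab v) (star G v)
  refine ⟨fun v => g v ∘ e, ?_⟩
  intro u v
  have key : ∀ u v : Fin n, u < v → G.dist u v = mis (g u) (g v) := by
    intro u v huv
    have hne : u ≠ v := ne_of_lt huv
    have huv' : (u : ℕ) < v := huv
    have hd : G.dist u v = if G.Adj u v then 1 else 2 := by
      split_ifs with h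
      · exact SimpleGraph.dist_eq_one_iff_adj.mpr h
      · exact dist_two G hD u v hne h
    show _ = mis (Sum.elim (tab u) (star G u)) (Sum.elim (tab v) (star G v))
    rw [mis_sum, hd]
    by_cases hv : (v : ℕ) < 8
    · have hu : (u : ℕ) < 8 := by omega
      have ht := tab_small ⟨u, hu⟩ ⟨v, hv⟩
      rw [star_small G u v hu hv]
      simp only at ht
      rw [ht]
      have hne' : (⟨u, hu⟩ : Fin 8) ≠ ⟨v, hv⟩ := by
        intro h
        apply hne
        ext
        simpa using h
      rw [if_neg hne']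
      have := hO u v hu hv
      by_cases hc : ((u : ℕ) / 4 = (v : ℕ) / 4 ∧ (u : ℕ) % 2 = (v : ℕ) % 2)
      · rw [if_pos hc, if_neg (by rw [this]; simpa using hc)]
      · rw [if_neg hc, if_pos (this.mpr hc)]
    · have hv' : 8 ≤ (v : ℕ) := by omega
      by_cases hu : (u : ℕ) < 8
      · have ht := tab_mixed v hv' ⟨u, hu⟩
        simp only at ht
        rw [ht, star_mixed G u v hu hv']
        split_ifs <;> rfl
      · have hu' : 8 ≤ (u : ℕ) := by omega
        rw [tab_large u v hu' hv', star_large G u v hu' hv' huv]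
        split_ifs <;> rfl
  have e1 : (Finset.univ.filter
        (fun i => (g u ∘ e) i ≠ none ∧ (g v ∘ e) i ≠ none ∧ (g u ∘ e) i ≠ (g v ∘ e) i)).card
        = mis (g u) (g v) := by
    rw [← mis_equiv e (g u) (g v), mis_eq]
  show _ = (Finset.univ.filter
        (fun i => (g u ∘ e) i ≠ none ∧ (g v ∘ e) i ≠ none ∧ (g u ∘ e) i ≠ (g v ∘ e) i)).card
  rw [e1]
  rcases lt_trichotomy u v with h | h | h
  · exact key u v h
  · subst h
    rw [SimpleGraph.dist_self]
    unfold mis
    symm
    exact Finset.sum_eq_zero (fun i _ => mm_self _)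
  · rw [SimpleGraph.dist_comm, mis_comm]
    exact key v u h

end Pool.Agent.H259R2.Sq
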