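import Mathlib
import Pool.Agent.H259R2.SqAddr

set_option autoImplicit false

namespace Pool.Agent.H259R2.Sq

open Finset

open Classical in
/-- replace the graph on the first eight vertices by `K_{2,2,2,2}` -/
noncomputable def plant {n : ℕ} (G : SimpleGraph (Fin n)) : SimpleGraph (Fin n) where
  Adj i j := if (i : ℕ) < 8 ∧ (j : ℕ) < 8 then
    ¬ ((i : ℕ) / 4 = (j : ℕ) / 4 ∧ (i : ℕ) % 2 = (j : ℕ) % 2) else G.Adj i j
  symm := ⟨by
    intro i j h
    by_cases hh : (i : ℕ) < 8 ∧ (j : ℕ) < 8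
    · rw [if_pos hh] at h
      rw [if_pos hh.symm]
      intro h'
      exact h ⟨h'.1.symm, h'.2.symm⟩
    · rw [if_neg hh] at h
      rw [if_neg (fun h' => hh h'.symm)]
      exact h.symm⟩
  loopless := ⟨by
    intro i h
    by_cases hh : (i : ℕ) < 8 ∧ (i : ℕ) < 8
    · rw [if_pos hh] at h
      exact h ⟨rfl, rfl⟩
    · rw [if_neg hh] at h
      exact G.irrefl h⟩

theorem plant_oct {n : ℕ} (G : SimpleGraph (Fin n)) : Oct (plant G) := by
  intro i j hi hj
  simp [plant, hi, hj]

theorem card_oct (n : ℕ) :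
    Nat.card (SimpleGraph (Fin n)) ≤ Nat.card {G : SimpleGraph (Fin n) // Oct G} * 2 ^ 64 := by
  classical
  let φ : SimpleGraph (Fin n) → {G : SimpleGraph (Fin n) // Oct G} × (Fin 8 × Fin 8 → Bool) :=
    fun G => (⟨plant G, plant_oct G⟩, fun p =>
      if h : (p.1 : ℕ) < n ∧ (p.2 : ℕ) < n then decide (G.Adj ⟨p.1, h.1⟩ ⟨p.2, h.2⟩) else false)
  have hφ : Function.Injective φ := by
    intro G H h
    have h1 := congrArg (fun x => x.1.1) h
    have h2 := congrArg (fun x => x.2) h
    simp only [φ] at h1 h2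
    ext i j
    by_cases hh : (i : ℕ) < 8 ∧ (j : ℕ) < 8
    · have := congrFun h2 (⟨i, hh.1⟩, ⟨j, hh.2⟩)
      simpa using this
    · have h3 : (plant G).Adj i j ↔ (plant H).Adj i j := by rw [h1]
      simpa only [plant, if_neg hh] using h3
  have := Nat.card_le_card_of_injective φ hφ
  rw [Nat.card_prod] at this
  have h2 : Nat.card (Fin 8 × Fin 8 → Bool) = 2 ^ 64 := by
    simp
  rw [h2] at this
  exact this

/-- vertices other than `u`, `v` -/
abbrev WW {n : ℕ} (u v : Fin n) := {w : Fin n // w ≠ u ∧ w ≠ v}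

theorem card_WW {n : ℕ} (u v : Fin n) (h : u ≠ v) : Nat.card (WW u v) = n - 2 := by
  classical
  rw [Nat.card_eq_fintype_card, Fintype.card_subtype]
  have : (Finset.univ.filter (fun w : Fin n => w ≠ u ∧ w ≠ v)) = (Finset.univ \ {u, v}) := by
    ext w
    simp
  rw [this, Finset.card_sdiff]
  simp [Finset.card_pair h]

/-- graphs without edges between `{u,v}` and the other vertices -/
abbrev RR {n : ℕ} (u v : Fin n) :=
  {G : SimpleGraph (Fin n) // ∀ w : WW u v, ¬ G.Adj u w ∧ ¬ G.Adj v w}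

/-- graphs in which `u` and `v` have no common neighbour -/
abbrev NC {n : ℕ} (u v : Fin n) :=
  {G : SimpleGraph (Fin n) // ∀ w, ¬ (G.Adj u w ∧ G.Adj v w)}

/-- remove all edges between `{u,v}` and the rest -/
def strip {n : ℕ} (u v : Fin n) (G : SimpleGraph (Fin n)) : SimpleGraph (Fin n) where
  Adj i j := G.Adj i j ∧ ((i ≠ u ∧ i ≠ v) ↔ (j ≠ u ∧ j ≠ v))
  symm := ⟨by
    intro i j h
    exact ⟨h.1.symm, h.2.symm⟩⟩
  loopless := ⟨by
    intro i h
    exact G.irrefl h.1⟩

theorem card_NC {n : ℕ} (u v : Fin n) (h : u ≠ v) :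
    Nat.card (NC u v) ≤ Nat.card (RR u v) * 3 ^ (n - 2) := by
  classical
  let φ : NC u v → RR u v × (WW u v → Fin 3) := fun G =>
    (⟨strip u v G.1, by
      intro w
      have hw := w.2
      constructor
      · intro h'
        have := h'.2.2 hw
        exact this.1 rfl
      · intro h'
        have := h'.2.2 hw
        exact this.2 rfl⟩, fun w => if G.1.Adj u w then 1 else if G.1.Adj v w then 2 else 0)
  have hφ : Function.Injective φ := by
    intro G H hGH
    have h1 := congrArg (fun x => x.1.1) hGH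
    have h2 := congrArg (fun x => x.2) hGH
    simp only [φ] at h1 h2
    have hu : ∀ w : WW u v, (G.1.Adj u w ↔ H.1.Adj u w) ∧ (G.1.Adj v w ↔ H.1.Adj v w) := by
      intro w
      have h3 := congrFun h2 w
      have g1 := G.2 w
      have g2 := H.2 w
      by_cases a1 : G.1.Adj u w <;> by_cases a2 : G.1.Adj v w <;>
        by_cases a3 : H.1.Adj u w <;> by_cases a4 : H.1.Adj v w <;> simp_all
    have key : ∀ i j : Fin n, (i ≠ u ∧ i ≠ v) → ¬ (j ≠ u ∧ j ≠ v) → (G.1.Adj j i ↔ H.1.Adj j i) := by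
      intro i j hi hj
      have := hu ⟨i, hi⟩
      by_cases hju : j = u
      · subst hju
        exact this.1
      · have hjv : j = v := by
          by_contra hjv
          exact hj ⟨hju, hjv⟩
        subst hjv
        exact this.2
    apply Subtype.ext
    ext i j
    have h3 : (strip u v G.1).Adj i j ↔ (strip u v H.1).Adj i j := by rw [h1]
    by_cases hi : (i ≠ u ∧ i ≠ v) <;> by_cases hj : (j ≠ u ∧ j ≠ v)
    · simpa [strip, hi, hj] using h3
    · rw [SimpleGraph.adj_comm, SimpleGraph.adj_comm H.1]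
      exact key i j hi hj
    · exact key j i hj hi
    · have e : ((i ≠ u ∧ i ≠ v) ↔ (j ≠ u ∧ j ≠ v)) := by
        constructor
        · intro h'; exact absurd h' hi
        · intro h'; exact absurd h' hj
      simpa only [strip, e, and_true, iff_self] using h3
  have := Nat.card_le_card_of_injective φ hφ
  rw [Nat.card_prod] at this
  have h2 : Nat.card (WW u v → Fin 3) = 3 ^ (n - 2) := by
    rw [Nat.card_fun]
    rw [card_WW u v h]
    simp
  rw [h2] at this
  exact this

open Classical in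
/-- add prescribed edges between `{u,v}` and the rest -/
noncomputable def glue {n : ℕ} (u v : Fin n) (h : u ≠ v) (G : RR u v) (c : WW u v → Bool × Bool) :
    SimpleGraph (Fin n) where
  Adj i j := G.1.Adj i j ∨ (∃ w : WW u v, (i = u ∧ j = w ∧ (c w).1 = true) ∨ (j = u ∧ i = w ∧ (c w).1 = true) ∨
    (i = v ∧ j = w ∧ (c w).2 = true) ∨ (j = v ∧ i = w ∧ (c w).2 = true))
  symm := ⟨by
    rintro i j (h | ⟨w, h | h | h | h⟩)
    · exact Or.inl h.symm
    · exact Or.inr ⟨w, Or.inr (Or.inl h)⟩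
    · exact Or.inr ⟨w, Or.inl h⟩
    · exact Or.inr ⟨w, Or.inr (Or.inr (Or.inr h))⟩
    · exact Or.inr ⟨w, Or.inr (Or.inr (Or.inl h))⟩⟩
  loopless := ⟨by
    rintro i (h | ⟨w, h | h | h | h⟩)
    · exact G.1.irrefl h
    · exact w.2.1 (h.2.1.symm.trans h.1)
    · exact w.2.1 (h.2.1.symm.trans h.1)
    · exact w.2.2 (h.2.1.symm.trans h.1)
    · exact w.2.2 (h.2.1.symm.trans h.1)⟩

theorem card_RR {n : ℕ} (u v : Fin n) (h : u ≠ v) :
    Nat.card (RR u v) * 4 ^ (n - 2) ≤ Nat.card (SimpleGraph (Fin n)) := by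
  classical
  let φ : RR u v × (WW u v → Bool × Bool) → SimpleGraph (Fin n) := fun p => glue u v h p.1 p.2
  have a1 : ∀ (p : RR u v × (WW u v → Bool × Bool)) (w : WW u v), (φ p).Adj u w ↔ (p.2 w).1 = true := by
    intro p w
    have hw := w.2
    constructor
    · rintro (h' | ⟨w', h' | h' | h' | h'⟩)
      · exact absurd h' (p.1.2 w).1
      · have : w = w' := Subtype.ext h'.2.1
        rw [this]; exact h'.2.2
      · exact absurd h'.1 w.2.1
      · exact absurd h'.1 h
      · exact absurd h'.1 w.2.2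
    · intro h'
      exact Or.inr ⟨w, Or.inl ⟨rfl, rfl, h'⟩⟩
  have a2 : ∀ (p : RR u v × (WW u v → Bool × Bool)) (w : WW u v), (φ p).Adj v w ↔ (p.2 w).2 = true := by
    intro p w
    have hw := w.2
    constructor
    · rintro (h' | ⟨w', h' | h' | h' | h'⟩)
      · exact absurd h' (p.1.2 w).2
      · exact absurd h'.1.symm h
      · exact absurd h'.1 w.2.1
      · have : w = w' := Subtype.ext h'.2.1
        rw [this]; exact h'.2.2
      · exact absurd h'.1 w.2.2
    · intro h'
      exact Or.inr ⟨w, Or.inr (Or.inr (Or.inl ⟨rfl, rfl, h'⟩))⟩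
  have a3 : ∀ (p : RR u v × (WW u v → Bool × Bool)), strip u v (φ p) = p.1.1 := by
    intro p
    ext i j
    constructor
    · rintro ⟨h1 | ⟨w, h' | h' | h' | h'⟩, h2⟩
      · exact h1
      · exfalso
        have := h2.2 (by rw [h'.2.1]; exact w.2)
        exact this.1 h'.1
      · exfalso
        have := h2.1 (by rw [h'.2.1]; exact w.2)
        exact this.1 h'.1
      · exfalso
        have := h2.2 (by rw [h'.2.1]; exact w.2)
        exact this.2 h'.1
      · exfalso
        have := h2.1 (by rw [h'.2.1]; exact w.2)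
        exact this.2 h'.1
    · intro h1
      refine ⟨Or.inl h1, ?_⟩
      constructor
      · intro hi
        constructor
        · rintro rfl
          exact (p.1.2 ⟨i, hi⟩).1 h1.symm
        · rintro rfl
          exact (p.1.2 ⟨i, hi⟩).2 h1.symm
      · intro hj
        constructor
        · rintro rfl
          exact (p.1.2 ⟨j, hj⟩).1 h1
        · rintro rfl
          exact (p.1.2 ⟨j, hj⟩).2 h1
  have hφ : Function.Injective φ := by
    intro p q hpq
    have h1 : p.1 = q.1 := by
      apply Subtype.ext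
      rw [← a3 p, ← a3 q, hpq]
    have h2 : p.2 = q.2 := by
      funext w
      have b1 := a1 p w
      have b2 := a1 q w
      have b3 := a2 p w
      have b4 := a2 q w
      rw [hpq] at b1 b3
      apply Prod.ext
      · rw [Bool.eq_iff_iff]
        exact b1.symm.trans b2
      · rw [Bool.eq_iff_iff]
        exact b3.symm.trans b4
    exact Prod.ext h1 h2
  have := Nat.card_le_card_of_injective φ hφ
  rw [Nat.card_prod] at this
  have h2 : Nat.card (WW u v → Bool × Bool) = 4 ^ (n - 2) := by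
    rw [Nat.card_fun]
    rw [card_WW u v h]
    simp
  rw [h2] at this
  exact this

theorem card_NC' {n : ℕ} (u v : Fin n) (h : u ≠ v) :
    (Nat.card (NC u v) : ℝ) ≤ (3 / 4 : ℝ) ^ (n - 2) * Nat.card (SimpleGraph (Fin n)) := by
  have h1 := card_NC u v h
  have h2 := card_RR u v h
  have h1' : (Nat.card (NC u v) : ℝ) ≤ Nat.card (RR u v) * 3 ^ (n - 2) := by exact_mod_cast h1
  have h2' : (Nat.card (RR u v) : ℝ) * 4 ^ (n - 2) ≤ Nat.card (SimpleGraph (Fin n)) := by
    exact_mod_cast h2
  calc (Nat.card (NC u v) : ℝ) ≤ Nat.card (RR u v) * 3 ^ (n - 2) := h1'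
    _ = (3 / 4 : ℝ) ^ (n - 2) * (Nat.card (RR u v) * 4 ^ (n - 2)) := by
        rw [div_pow]; field_simp
    _ ≤ _ := by
        apply mul_le_mul_of_nonneg_left h2' (by positivity)

/-- the fraction of bad graphs -/
theorem card_notDiam2 (n : ℕ) :
    (Nat.card {G : SimpleGraph (Fin n) // ¬ Diam2 G} : ℝ) ≤
      (n : ℝ) ^ 2 * (3 / 4 : ℝ) ^ (n - 2) * Nat.card (SimpleGraph (Fin n)) := by
  classical
  let P := {p : Fin n × Fin n // p.1 ≠ p.2}
  let φ : {G : SimpleGraph (Fin n) // ¬ Diam2 G} → Σ p : P, NC p.1.1 p.1.2 := fun G =>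
    have h := G.2
    have h1 : ∃ u v : Fin n, u ≠ v ∧ ∀ w, ¬ (G.1.Adj u w ∧ G.1.Adj v w) := by
      unfold Diam2 at h
      push Not at h
      obtain ⟨u, v, h1, h2⟩ := h
      exact ⟨u, v, h1, fun w hw => h2 w hw.1 hw.2⟩
    ⟨⟨(h1.choose, h1.choose_spec.choose), h1.choose_spec.choose_spec.1⟩,
      ⟨G.1, h1.choose_spec.choose_spec.2⟩⟩
  have hφ : Function.Injective φ := by
    intro G H h
    have h1 : (φ G).2.1 = (φ H).2.1 := by rw [h]
    exact Subtype.ext h1
  have h1 := Nat.card_le_card_of_injective φ hφ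
  rw [Nat.card_sigma] at h1
  have h2 : (Nat.card {G : SimpleGraph (Fin n) // ¬ Diam2 G} : ℝ) ≤
      ∑ p : P, (Nat.card (NC p.1.1 p.1.2) : ℝ) := by exact_mod_cast h1
  refine h2.trans ?_
  refine (Finset.sum_le_sum (fun p _ => card_NC' p.1.1 p.1.2 p.2)).trans ?_
  rw [Finset.sum_const, nsmul_eq_mul, ← mul_assoc]
  apply mul_le_mul_of_nonneg_right _ (by positivity)
  apply mul_le_mul_of_nonneg_right _ (by positivity)
  have h3 : Fintype.card P ≤ n ^ 2 := by
    have := Fintype.card_subtype_le (fun p : Fin n × Fin n => p.1 ≠ p.2)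
    rw [Fintype.card_prod, Fintype.card_fin, ← sq] at this
    exact this
  rw [Finset.card_univ]
  exact_mod_cast h3

end Pool.Agent.H259R2.Sq
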